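import Pool.Agent.Helper15.LR.Defs

set_option autoImplicit false

/-!
LR module G5: lower tail estimate for the binomial distribution.
-/

open Finset Filter

namespace Pool.Agent.Helper67.LR

open Pool.Agent.Helper15.LR

noncomputable section

/-- sharp order of the central binomial coefficient -/
theorem cb (m : ℕ) (hm : 1 ≤ m) : (16 : ℝ) ^ m ≤ 4 * m * (Nat.centralBinom m : ℝ) ^ 2 := by
  induction m, hm using Nat.le_induction with
  | base =>
    have h1 : Nat.centralBinom 1 = 2 := by decide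
    rw [h1]; norm_num
  | succ m hm ih =>
    have h := Nat.succ_mul_centralBinom_succ m
    have h' : ((m : ℝ) + 1) * (Nat.centralBinom (m + 1) : ℝ)
        = 2 * (2 * m + 1) * (Nat.centralBinom m : ℝ) := by
      exact_mod_cast h
    have hm0 : (0 : ℝ) < m := by exact_mod_cast hm
    have hm1 : (0 : ℝ) < (m : ℝ) + 1 := by positivity
    set c : ℝ := (Nat.centralBinom m : ℝ)
    set d : ℝ := (Nat.centralBinom (m + 1) : ℝ)
    have hd : d = 2 * (2 * m + 1) * c / (m + 1) := by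
      rw [eq_div_iff hm1.ne']; linarith
    push_cast
    rw [pow_succ, hd]
    have e : 4 * ((m : ℝ) + 1) * (2 * (2 * m + 1) * c / (m + 1)) ^ 2
        = (4 * m * c ^ 2) * 16 * ((2 * m + 1) ^ 2 / (4 * m * (m + 1))) := by
      field_simp
      ring
    rw [e]
    have h3 : (1 : ℝ) ≤ (2 * (m : ℝ) + 1) ^ 2 / (4 * m * (m + 1)) := by
      rw [le_div_iff₀ (by positivity)]
      nlinarith
    have h4 : (0 : ℝ) ≤ 4 * m * c ^ 2 * 16 := by positivity
    nlinarith [mul_le_mul_of_nonneg_left h3 h4]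

theorem cb' (m : ℕ) (hm : 1 ≤ m) : (4 : ℝ) ^ m ≤ 2 * Real.sqrt m * (Nat.centralBinom m : ℝ) := by
  have h := cb m hm
  have h1 : (4 : ℝ) ^ m = Real.sqrt ((16 : ℝ) ^ m) := by
    rw [show (16 : ℝ) ^ m = ((4 : ℝ) ^ m) ^ 2 by rw [← pow_mul, mul_comm, pow_mul]; norm_num]
    rw [Real.sqrt_sq (by positivity)]
  have h2 : 2 * Real.sqrt m * (Nat.centralBinom m : ℝ)
      = Real.sqrt (4 * m * (Nat.centralBinom m : ℝ) ^ 2) := by
    rw [Real.sqrt_mul (by positivity), Real.sqrt_sq (by positivity),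
      Real.sqrt_mul (by norm_num)]
    rw [show Real.sqrt 4 = 2 by
      rw [show (4 : ℝ) = 2 ^ 2 by norm_num]; exact Real.sqrt_sq (by norm_num)]
  rw [h1, h2]
  exact Real.sqrt_le_sqrt h

/-- the middle binomial coefficient -/
theorem mid (N : ℕ) (hN : 1 ≤ N) :
    (2 : ℝ) ^ N ≤ 2 * Real.sqrt N * (N.choose ((N + 1) / 2) : ℝ) := by
  rcases Nat.even_or_odd' N with ⟨m, rfl | rfl⟩
  · have hm : 1 ≤ m := by omega
    have h := cb' m hm
    have e : (2 * m + 1) / 2 = m := by omega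
    rw [e]
    have e2 : ((2 * m).choose m : ℝ) = (Nat.centralBinom m : ℝ) := by
      rw [Nat.centralBinom_eq_two_mul_choose]
    rw [e2, pow_mul]
    norm_num only
    refine h.trans ?_
    have hs : Real.sqrt m ≤ Real.sqrt ((2 * m : ℕ) : ℝ) := by
      apply Real.sqrt_le_sqrt
      push_cast
      have : (0 : ℝ) ≤ m := by positivity
      linarith
    have h0 : (0 : ℝ) ≤ (Nat.centralBinom m : ℝ) := by positivity
    nlinarith [mul_le_mul_of_nonneg_right hs h0]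
  · have h := cb' (m + 1) (by omega)
    have e : (2 * m + 1 + 1) / 2 = m + 1 := by omega
    rw [e]
    have e2 : (Nat.centralBinom (m + 1) : ℝ) = 2 * ((2 * m + 1).choose (m + 1) : ℝ) := by
      have h1 : (2 * (m + 1)).choose (m + 1)
          = (2 * m + 1).choose m + (2 * m + 1).choose (m + 1) := by
        rw [show 2 * (m + 1) = (2 * m + 1) + 1 by ring]
        exact Nat.choose_succ_succ _ _
      have h2 : (2 * m + 1).choose m = (2 * m + 1).choose (m + 1) := by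
        apply Nat.choose_symm_of_eq_add; ring
      rw [Nat.centralBinom_eq_two_mul_choose, h1, h2]
      push_cast
      ring
    rw [e2] at h
    have hs : Real.sqrt ((m + 1 : ℕ) : ℝ) ≤ Real.sqrt ((2 * m + 1 : ℕ) : ℝ) := by
      apply Real.sqrt_le_sqrt
      push_cast
      have : (0 : ℝ) ≤ m := by positivity
      linarith
    have h0 : (0 : ℝ) ≤ ((2 * m + 1).choose (m + 1) : ℝ) := by positivity
    have e3 : (4 : ℝ) ^ (m + 1) = 2 * 2 ^ (2 * m + 1) := by
      rw [show (4 : ℝ) = 2 ^ 2 by norm_num, ← pow_mul]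
      ring
    rw [e3] at h
    nlinarith [mul_le_mul_of_nonneg_right hs h0]

theorem one_sub_ge (y : ℝ) (h0 : 0 ≤ y) (h1 : y ≤ 1 / 2) : Real.exp (-(y + y ^ 2)) ≤ 1 - y := by
  have hz : 0 ≤ y + y ^ 2 := by positivity
  have h := Real.quadratic_le_exp_of_nonneg hz
  rw [Real.exp_neg, inv_le_comm₀ (Real.exp_pos _) (by linarith)]
  refine le_trans ?_ h
  rw [inv_le_iff_one_le_mul₀ (by linarith)]
  have h2 : 0 ≤ y ^ 2 := by positivity
  nlinarith [mul_nonneg h2 (by nlinarith : (0 : ℝ) ≤ 1 - y - y ^ 2 - y ^ 3)]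

/-- one sided lower bound near the middle -/
theorem near (N : ℕ) (hN : 1 ≤ N) (s : ℕ) (hs : 8 * s ≤ N) :
    (N.choose ((N + 1) / 2) : ℝ) *
        Real.exp (-(2 * s * (s + 1) / N + 16 * (s : ℝ) ^ 3 / N ^ 2)) ≤
      (N.choose ((N + 1) / 2 + s) : ℝ) := by
  have hN0 : (0 : ℝ) < N := by exact_mod_cast hN
  induction s with
  | zero => simp
  | succ s ih =>
    have ih := ih (by omega)
    set k0 := (N + 1) / 2 with hk0
    have hk : (N : ℝ) / 2 ≤ (k0 : ℝ) := by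
      have : N ≤ 2 * k0 := by omega
      have : (N : ℝ) ≤ 2 * k0 := by exact_mod_cast this
      linarith
    have hc := Nat.choose_succ_right_eq N (k0 + s)
    have hle : k0 + s ≤ N := by omega
    have hc' : (N.choose (k0 + s + 1) : ℝ) * ((k0 : ℝ) + s + 1)
        = (N.choose (k0 + s) : ℝ) * ((N : ℝ) - (k0 + s)) := by
      have := congrArg (Nat.cast : ℕ → ℝ) hc
      push_cast [Nat.cast_sub hle] at this
      exact this
    have hpos : (0 : ℝ) < (k0 : ℝ) + s + 1 := by positivity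
    have hc2 : (N.choose (k0 + s + 1) : ℝ)
        = (N.choose (k0 + s) : ℝ) * (((N : ℝ) - (k0 + s)) / ((k0 : ℝ) + s + 1)) := by
      rw [mul_div_assoc', eq_div_iff hpos.ne']
      exact hc'
    set y : ℝ := 4 * ((s : ℝ) + 1) / N with hy
    have hy0 : 0 ≤ y := by positivity
    have hy1 : y ≤ 1 / 2 := by
      rw [hy, div_le_iff₀ hN0]
      have : (8 : ℝ) * (s + 1) ≤ N := by exact_mod_cast hs
      linarith
    have hk2 : (2 : ℝ) * k0 ≤ N + 1 := by
      have : 2 * k0 ≤ N + 1 := by omega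
      exact_mod_cast this
    have hratio : 1 - y ≤ ((N : ℝ) - (k0 + s)) / ((k0 : ℝ) + s + 1) := by
      have h1 : 1 - (2 * (s : ℝ) + 2) / ((k0 : ℝ) + s + 1)
          ≤ ((N : ℝ) - (k0 + s)) / ((k0 : ℝ) + s + 1) := by
        rw [← sub_nonneg]
        have : ((N : ℝ) - (k0 + s)) / ((k0 : ℝ) + s + 1)
            - (1 - (2 * (s : ℝ) + 2) / ((k0 : ℝ) + s + 1))
            = (N - 2 * k0 + 1) / ((k0 : ℝ) + s + 1) := by
          field_simp
          ring
        rw [this]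
        exact div_nonneg (by linarith) hpos.le
      have h2 : (2 * (s : ℝ) + 2) / ((k0 : ℝ) + s + 1) ≤ y := by
        rw [hy, div_le_div_iff₀ hpos hN0]
        have hs0 : (0 : ℝ) ≤ s := by positivity
        nlinarith
      linarith
    have hexp : Real.exp (-(2 * ((s + 1 : ℕ) : ℝ) * (((s + 1 : ℕ) : ℝ) + 1) / N
          + 16 * ((s + 1 : ℕ) : ℝ) ^ 3 / N ^ 2))
        ≤ Real.exp (-(2 * s * (s + 1) / N + 16 * (s : ℝ) ^ 3 / N ^ 2)) * (1 - y) := by
      refine le_trans ?_ (mul_le_mul_of_nonneg_left (one_sub_ge y hy0 hy1) (Real.exp_pos _).le)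
      rw [← Real.exp_add]
      apply Real.exp_le_exp.mpr
      push_cast
      have : 0 ≤ (2 * ((s : ℝ) + 1) * ((s : ℝ) + 1 + 1) / N + 16 * ((s : ℝ) + 1) ^ 3 / N ^ 2)
          - ((2 * s * (s + 1) / N + 16 * (s : ℝ) ^ 3 / N ^ 2) + (y + y ^ 2)) := by
        have e : (2 * ((s : ℝ) + 1) * ((s : ℝ) + 1 + 1) / N + 16 * ((s : ℝ) + 1) ^ 3 / N ^ 2)
          - ((2 * s * (s + 1) / N + 16 * (s : ℝ) ^ 3 / N ^ 2) + (y + y ^ 2))
          = 16 * (2 * (s : ℝ) ^ 2 + s) / N ^ 2 := by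
          rw [hy]
          field_simp
          ring
        rw [e]
        positivity
      linarith
    have hA : (0 : ℝ) ≤ (N.choose k0 : ℝ) := by positivity
    calc (N.choose k0 : ℝ) * Real.exp (-(2 * ((s + 1 : ℕ) : ℝ) * (((s + 1 : ℕ) : ℝ) + 1) / N
          + 16 * ((s + 1 : ℕ) : ℝ) ^ 3 / N ^ 2))
        ≤ (N.choose k0 : ℝ) *
          (Real.exp (-(2 * s * (s + 1) / N + 16 * (s : ℝ) ^ 3 / N ^ 2)) * (1 - y)) :=
          mul_le_mul_of_nonneg_left hexp hA
      _ = ((N.choose k0 : ℝ) * Real.exp (-(2 * s * (s + 1) / N + 16 * (s : ℝ) ^ 3 / N ^ 2)))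
          * (1 - y) := by ring
      _ ≤ (N.choose (k0 + s) : ℝ) * (1 - y) :=
          mul_le_mul_of_nonneg_right ih (by linarith)
      _ ≤ (N.choose (k0 + s) : ℝ) * (((N : ℝ) - (k0 + s)) / ((k0 : ℝ) + s + 1)) :=
          mul_le_mul_of_nonneg_left hratio (by positivity)
      _ = (N.choose (k0 + s + 1) : ℝ) := hc2.symm

/-- numerical estimate -/
theorem numer (N : ℕ) (hN : Real.exp (200 ^ 2) ≤ N) (s : ℕ)
    (hs : (s : ℝ) ≤ 11 / 20 * SS N + Real.sqrt N + 1) :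
    8 * s ≤ N ∧
    2 * (N : ℝ) ^ (-(13 / 20) : ℝ) ≤
      Real.exp (-(2 * s * (s + 1) / N + 16 * (s : ℝ) ^ 3 / N ^ 2)) := by
  have hN0 : (0 : ℝ) < N := lt_of_lt_of_le (Real.exp_pos _) hN
  have hlog : (200 : ℝ) ^ 2 ≤ Real.log N := (Real.le_log_iff_exp_le hN0).mpr hN
  set l := Real.log N with hl
  have hl0 : 0 ≤ l := le_trans (by norm_num) hlog
  set u := Real.sqrt l with hu
  have hu0 : 0 ≤ u := Real.sqrt_nonneg _
  have hul : u ^ 2 = l := Real.sq_sqrt hl0
  have hu200 : 200 ≤ u := by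
    rw [hu]; exact Real.le_sqrt_of_sq_le hlog
  set q := Real.sqrt N with hq
  have hq0 : 0 < q := Real.sqrt_pos.mpr hN0
  have hqN : q ^ 2 = N := Real.sq_sqrt hN0.le
  have hSS : SS N = q * u := by
    unfold SS
    rw [Real.sqrt_mul hN0.le]
  -- q is large
  have hqexp : q = Real.exp (u ^ 2 / 2) := by
    rw [hul, hq]
    rw [show (N : ℝ) = Real.exp l by rw [hl, Real.exp_log hN0]]
    rw [← Real.exp_half]
  have hqbig : 16 * u ^ 3 ≤ q := by
    rw [hqexp]
    have h1 := Real.pow_div_factorial_le_exp (u ^ 2 / 2) (by positivity) 4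
    refine le_trans ?_ h1
    have : (Nat.factorial 4 : ℝ) = 24 := by norm_num [Nat.factorial]
    rw [this, le_div_iff₀ (by norm_num)]
    have h5 : (200 : ℝ) ^ 5 ≤ u ^ 5 := pow_le_pow_left₀ (by norm_num) hu200 5
    have h3 : 0 ≤ u ^ 3 := by positivity
    have e : (u ^ 2 / 2) ^ 4 = u ^ 5 * u ^ 3 / 16 := by ring
    rw [e]
    nlinarith [mul_le_mul_of_nonneg_right h5 h3]
  have hq1 : 1 ≤ q := by
    have : (200 : ℝ) ^ 3 ≤ u ^ 3 := pow_le_pow_left₀ (by norm_num) hu200 3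
    nlinarith
  have hsq : (s : ℝ) ≤ q * (11 / 20 * u + 2) := by
    rw [hSS] at hs
    nlinarith
  set c := 11 / 20 * u + 2 with hc
  have hc0 : 0 ≤ c := by positivity
  have hcu : c ≤ u := by rw [hc]; linarith
  have hs0 : (0 : ℝ) ≤ s := by positivity
  have hN' : (N : ℝ) = q ^ 2 := hqN.symm
  have hu3 : 200 ^ 2 * u ≤ u ^ 3 := by
    have h2 : (200 : ℝ) ^ 2 ≤ u ^ 2 := pow_le_pow_left₀ (by norm_num) hu200 2
    nlinarith
  have hcq : c ≤ q / 16 := by
    nlinarith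
  constructor
  · have : (8 : ℝ) * s ≤ N := by
      rw [hN']
      calc (8 : ℝ) * s ≤ 8 * (q * c) := by linarith
        _ ≤ 8 * (q * (q / 16)) := by
            have := mul_le_mul_of_nonneg_left hcq hq0.le
            linarith
        _ ≤ q ^ 2 := by nlinarith
    exact_mod_cast this
  · have h1 : 2 * (s : ℝ) * (s + 1) / N ≤ 2 * c ^ 2 + 1 := by
      rw [div_le_iff₀ hN0, hN']
      have h2 : (s : ℝ) ^ 2 ≤ (q * c) ^ 2 := pow_le_pow_left₀ hs0 hsq 2
      have h3 : q * c ≤ q * (q / 16) := mul_le_mul_of_nonneg_left hcq hq0.le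
      nlinarith
    have h2 : 16 * (s : ℝ) ^ 3 / N ^ 2 ≤ 1 := by
      rw [div_le_one (by positivity), hN']
      have h3 : (s : ℝ) ^ 3 ≤ (q * c) ^ 3 := pow_le_pow_left₀ hs0 hsq 3
      have h4 : c ^ 3 ≤ u ^ 3 := pow_le_pow_left₀ hc0 hcu 3
      have h5 : 16 * c ^ 3 ≤ q := by linarith
      have h6 : 0 ≤ q ^ 3 := by positivity
      calc 16 * (s : ℝ) ^ 3 ≤ 16 * (q * c) ^ 3 := by linarith
        _ = q ^ 3 * (16 * c ^ 3) := by ring
        _ ≤ q ^ 3 * q := mul_le_mul_of_nonneg_left h5 h6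
        _ = (q ^ 2) ^ 2 := by ring
    have h3 : 2 * (N : ℝ) ^ (-(13 / 20) : ℝ) ≤ Real.exp (1 - 13 / 20 * l) := by
      rw [Real.rpow_def_of_pos hN0, ← hl]
      have h4 : (2 : ℝ) ≤ Real.exp 1 := by
        have := Real.add_one_le_exp (1 : ℝ)
        linarith
      calc 2 * Real.exp (l * -(13 / 20)) ≤ Real.exp 1 * Real.exp (l * -(13 / 20)) :=
            mul_le_mul_of_nonneg_right h4 (Real.exp_pos _).le
        _ = Real.exp (1 - 13 / 20 * l) := by
            rw [← Real.exp_add]; congr 1; ring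
    refine h3.trans ?_
    apply Real.exp_le_exp.mpr
    have h5 : 2 * c ^ 2 + 3 ≤ 13 / 20 * l := by
      rw [← hul, hc]
      nlinarith
    linarith

theorem G5 : Tail_stmt := by
  have hev : ∀ᶠ N : ℕ in atTop, Real.exp (200 ^ 2) ≤ (N : ℝ) :=
    tendsto_natCast_atTop_atTop.eventually_ge_atTop _
  filter_upwards [hev] with N hN
  have hN0 : (0 : ℝ) < N := lt_of_lt_of_le (Real.exp_pos _) hN
  have hN1 : 1 ≤ N := by
    have : 0 < N := by exact_mod_cast hN0
    omega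
  set s0 := ⌈(11 / 20 : ℝ) * SS N⌉₊ with hs0
  set r := ⌊Real.sqrt N⌋₊ with hr
  set k0 := (N + 1) / 2 with hk0
  have hSS0 : 0 ≤ SS N := Real.sqrt_nonneg _
  have hs0lt : (s0 : ℝ) < 11 / 20 * SS N + 1 := Nat.ceil_lt_add_one (by positivity)
  have hs0ge : 11 / 20 * SS N ≤ (s0 : ℝ) := Nat.le_ceil _
  have hrle : (r : ℝ) ≤ Real.sqrt N := Nat.floor_le (Real.sqrt_nonneg _)
  have hrgt : Real.sqrt N < (r : ℝ) + 1 := Nat.lt_floor_add_one _
  have hkhalf : (N : ℝ) / 2 ≤ (k0 : ℝ) := by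
    have : N ≤ 2 * k0 := by omega
    have : (N : ℝ) ≤ 2 * k0 := by exact_mod_cast this
    linarith
  -- each term
  have hterm : ∀ i ∈ range (r + 1), 2 * (N : ℝ) ^ (-(13 / 20) : ℝ) * (N.choose k0 : ℝ)
      ≤ (N.choose (k0 + (s0 + i)) : ℝ) ∧ 8 * (s0 + i) ≤ N := by
    intro i hi
    have hi' : i ≤ r := by simpa [Nat.lt_succ_iff] using hi
    have hi2 : (i : ℝ) ≤ r := by exact_mod_cast hi'
    obtain ⟨h8, hb⟩ := numer N hN (s0 + i) (by push_cast; linarith)
    refine ⟨?_, h8⟩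
    have hn := near N hN1 (s0 + i) h8
    refine le_trans ?_ hn
    rw [mul_comm]
    exact mul_le_mul_of_nonneg_left hb (by positivity)
  have hsum : ∑ i ∈ range (r + 1), (N.choose (k0 + (s0 + i)) : ℝ)
      ≤ ∑ k ∈ (range (N + 1)).filter
        (fun k : ℕ => (N : ℝ) / 2 + 11 / 20 * SS N ≤ k), (N.choose k : ℝ) := by
    have himg : (range (r + 1)).image (fun i => k0 + (s0 + i)) ⊆ (range (N + 1)).filter
        (fun k : ℕ => (N : ℝ) / 2 + 11 / 20 * SS N ≤ k) := by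
      intro k hk
      rw [mem_image] at hk
      obtain ⟨i, hi, rfl⟩ := hk
      have h8 := (hterm i hi).2
      rw [mem_filter, mem_range]
      refine ⟨by omega, ?_⟩
      push_cast
      have : (0 : ℝ) ≤ i := by positivity
      linarith
    calc ∑ i ∈ range (r + 1), (N.choose (k0 + (s0 + i)) : ℝ)
        = ∑ k ∈ (range (r + 1)).image (fun i => k0 + (s0 + i)), (N.choose k : ℝ) := by
          rw [sum_image]
          intro a _ b _ hab
          simpa using hab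
      _ ≤ _ := sum_le_sum_of_subset_of_nonneg himg (fun _ _ _ => by positivity)
  refine le_trans ?_ hsum
  have h1 : ∑ i ∈ range (r + 1), 2 * (N : ℝ) ^ (-(13 / 20) : ℝ) * (N.choose k0 : ℝ)
      ≤ ∑ i ∈ range (r + 1), (N.choose (k0 + (s0 + i)) : ℝ) :=
    sum_le_sum (fun i hi => (hterm i hi).1)
  refine le_trans ?_ h1
  rw [sum_const, card_range, nsmul_eq_mul]
  have hm := mid N hN1
  rw [← hk0] at hm
  have hp : 0 ≤ (N : ℝ) ^ (-(13 / 20) : ℝ) := Real.rpow_nonneg hN0.le _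
  have hC : (0 : ℝ) ≤ (N.choose k0 : ℝ) := by positivity
  push_cast
  calc (N : ℝ) ^ (-(13 / 20) : ℝ) * 2 ^ N
      ≤ (N : ℝ) ^ (-(13 / 20) : ℝ) * (2 * Real.sqrt N * (N.choose k0 : ℝ)) :=
        mul_le_mul_of_nonneg_left hm hp
    _ = Real.sqrt N * (2 * (N : ℝ) ^ (-(13 / 20) : ℝ) * (N.choose k0 : ℝ)) := by ring
    _ ≤ ((r : ℝ) + 1) * (2 * (N : ℝ) ^ (-(13 / 20) : ℝ) * (N.choose k0 : ℝ)) :=
        mul_le_mul_of_nonneg_right hrgt.le (by positivity)

end

end Pool.Agent.Helper67.LR
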